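import Mathlib

/-!
A subdivided shift graph padded with complete bipartite layers.
-/

namespace Pool.Agent.P.MP_0fa314_co

open SimpleGraph

/-- An odd closed walk contains an odd cycle that is no longer. -/
theorem split_of_not_isPath {W : Type} {Γ : SimpleGraph W} {x y : W} (q : Γ.Walk x y)
    (hq : ¬ q.IsPath) :
    ∃ (w : W) (q1 : Γ.Walk x w) (q2 : Γ.Walk w w) (q3 : Γ.Walk w y),
      0 < q2.length ∧ q1.length + q2.length + q3.length = q.length := by
  classical
  induction q with
  | nil => exact absurd Walk.IsPath.nil hq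
  | @cons u v z h q' ih =>
    by_cases hp : q'.IsPath
    · have hu : u ∈ q'.support := by
        by_contra hu
        exact hq ((Walk.cons_isPath_iff h q').mpr ⟨hp, hu⟩)
      refine ⟨u, Walk.nil, Walk.cons h (q'.takeUntil u hu), q'.dropUntil u hu, by simp, ?_⟩
      have := congrArg Walk.length (q'.take_spec hu)
      rw [Walk.length_append] at this
      simp only [Walk.length_nil, Walk.length_cons]
      omega
    · obtain ⟨w, q1, q2, q3, h0, hl⟩ := ih hp
      refine ⟨w, Walk.cons h q1, q2, q3, h0, ?_⟩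
      simp only [Walk.length_cons]
      omega

theorem exists_odd_cycle {W : Type} {Γ : SimpleGraph W} :
    ∀ (n : ℕ) (v : W) (p : Γ.Walk v v), p.length = n → n % 2 = 1 →
      ∃ (w : W) (c : Γ.Walk w w), c.IsCycle ∧ c.length % 2 = 1 ∧ c.length ≤ n := by
  intro n
  induction n using Nat.strong_induction_on with
  | _ n ih =>
    intro v p hl hodd
    cases p with
    | nil => simp at hl; omega
    | @cons _ u _ h q =>
      simp only [Walk.length_cons] at hl
      by_cases hq : q.IsPath
      · refine ⟨v, Walk.cons h q, ?_, ?_, ?_⟩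
        · rw [Walk.isCycle_iff_isPath_tail_and_le_length]
          refine ⟨by simpa using hq, ?_⟩
          simp only [Walk.length_cons]
          have : q.length ≠ 0 := by
            intro h0
            have := Walk.eq_of_length_eq_zero h0
            exact h.ne this.symm
          omega
        · simp only [Walk.length_cons]; omega
        · simp only [Walk.length_cons]; omega
      · obtain ⟨w, q1, q2, q3, h0, hs⟩ := split_of_not_isPath q hq
        by_cases h2 : q2.length % 2 = 1
        · obtain ⟨w', c, hc, hc1, hc2⟩ := ih q2.length (by omega) w q2 rfl h2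
          exact ⟨w', c, hc, hc1, by omega⟩
        · obtain ⟨w', c, hc, hc1, hc2⟩ :=
            ih (q1.length + q3.length + 1) (by omega) v (Walk.cons h (q1.append q3))
              (by simp [Walk.length_append]) (by omega)
          exact ⟨w', c, hc, hc1, by omega⟩

/-- Vertices of the shift graph. -/
abbrev S (m : ℕ) : Type := {p : Fin m × Fin m // p.1 < p.2}

/-- The padding set. -/
abbrev Om (m : ℕ) : Type := (Fin m → Bool) × S m

/-- Vertex set of the construction. -/
abbrev V (t m : ℕ) : Type := Fin (2 * t + 1) × (S m ⊕ Om m ⊕ Om m)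

/-- The generating relation of the construction. -/
def R (t m : ℕ) : V t m → V t m → Prop
  | (r, Sum.inl s), (r', Sum.inl s') =>
      (s = s' ∧ r.val + 1 = r'.val) ∨ (r.val = 2 * t ∧ r'.val = 0 ∧ s.1.2 = s'.1.1)
  | (r, Sum.inl s), (r', Sum.inr (Sum.inl w)) =>
      r = r' ∧ w.1 s.1.1 = true ∧ w.1 s.1.2 = false
  | (r, Sum.inr (Sum.inl _)), (r', Sum.inr (Sum.inr _)) => r = r'
  | _, _ => False

/-- The graph. -/
def G (t m : ℕ) : SimpleGraph (V t m) := SimpleGraph.fromRel (R t m)

/-- The near two-colouring. -/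
def col {t m : ℕ} : V t m → ℕ
  | (r, Sum.inl _) => r.val
  | (r, Sum.inr (Sum.inl _)) => r.val + 1
  | (r, Sum.inr (Sum.inr _)) => r.val

/-- Potential on the even sheet. -/
def Le {t m : ℕ} (s0 : S m) : V t m → ℕ
  | (r, Sum.inl s) => r.val + (if s = s0 then 0 else if s.1.2 = s0.1.1 then 3 else 2)
  | (r, Sum.inr (Sum.inl w)) => r.val + (if w.1 s0.1.1 = true then 1 else 2)
  | (r, Sum.inr (Sum.inr _)) => r.val + 2

/-- Potential on the odd sheet. -/
def Lo {t m : ℕ} (s0 : S m) : V t m → ℕ
  | (r, Sum.inl s) =>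
      (2 * t + 1 - r.val) + (if s.1.2 = s0.1.1 ∨ (r.val = 0 ∧ s.1.1 = s0.1.2) then 0 else 1)
  | (r, Sum.inr _) => (2 * t + 1 - r.val) + 1

/-- Potential on the double cover. -/
def L {t m : ℕ} (s0 : S m) (x : V t m) (k : ℕ) : ℕ :=
  if (k + col x) % 2 = 0 then Le s0 x else Lo s0 x

/-- Crossing pairs. -/
def Cross {t m : ℕ} (x y : V t m) : Prop :=
  ∃ (r r' : Fin (2 * t + 1)) (s s' : S m), x = (r, Sum.inl s) ∧ y = (r', Sum.inl s') ∧
    r.val = 2 * t ∧ r'.val = 0 ∧ s.1.2 = s'.1.1

theorem R_cases {t m : ℕ} (s0 : S m) {x y : V t m} (h : R t m x y) :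
    (col x % 2 ≠ col y % 2 ∧ Le s0 x ≤ Le s0 y + 1 ∧ Le s0 y ≤ Le s0 x + 1 ∧
      Lo s0 x ≤ Lo s0 y + 1 ∧ Lo s0 y ≤ Lo s0 x + 1) ∨
    (Cross x y ∧ col x % 2 = 0 ∧ col y % 2 = 0 ∧ Le s0 x ≤ Lo s0 y + 1 ∧ Lo s0 y ≤ Le s0 x + 1 ∧
      Lo s0 x ≤ Le s0 y + 1 ∧ Le s0 y ≤ Lo s0 x + 1) := by
  obtain ⟨r, s | w | w⟩ := x <;> obtain ⟨r', s' | w' | w'⟩ := y <;> simp only [R] at h
  · rcases h with ⟨rfl, h⟩ | ⟨h1, h2, h3⟩
    · left
      have := r'.isLt
      simp only [col, Le, Lo]
      refine ⟨by omega, by omega, by omega, ?_, ?_⟩ <;> split_ifs <;> omega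
    · right
      refine ⟨⟨r, r', s, s', rfl, rfl, h1, h2, h3⟩, ?_⟩
      have a1 := s.2
      have a2 := s'.2
      have a3 := s0.2
      simp only [col, Le, Lo]
      refine ⟨by omega, by omega, ?_, ?_, ?_, ?_⟩ <;> split_ifs <;> first | omega | (subst_vars; omega)
  · left
    obtain ⟨rfl, h1, h2⟩ := h
    have := r.isLt
    simp only [col, Le, Lo]
    refine ⟨by omega, ?_, ?_, ?_, ?_⟩ <;> split_ifs <;>
      first | omega | (subst_vars; simp_all)
  · left
    subst h
    have := r.isLt
    simp only [col, Le, Lo]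
    refine ⟨by omega, ?_, ?_, ?_, ?_⟩ <;> first | omega | (split_ifs <;> omega)

theorem adj_R {t m : ℕ} {x y : V t m} (h : (G t m).Adj x y) : R t m x y ∨ R t m y x := by
  unfold G at h
  rw [SimpleGraph.fromRel_adj] at h
  exact h.2

theorem L_step {t m : ℕ} (s0 : S m) {x y : V t m} (h : (G t m).Adj x y) (k : ℕ) :
    L s0 y (k + 1) ≤ L s0 x k + 1 := by
  unfold L
  rcases adj_R h with h | h <;> rcases R_cases s0 h with h | h <;> split_ifs <;> omega

theorem L_walk {t m : ℕ} (s0 : S m) {x y : V t m} (p : (G t m).Walk x y) (k : ℕ) :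
    L s0 y (k + p.length) ≤ L s0 x k + p.length := by
  induction p generalizing k with
  | nil => simp
  | @cons u v z h q ih =>
    have h1 := L_step s0 h k
    have h2 := ih (k + 1)
    simp only [Walk.length_cons]
    rw [show k + (q.length + 1) = k + 1 + q.length by omega]
    omega

theorem cross_walk {t m : ℕ} {x y : V t m} (hc : Cross x y) (p : (G t m).Walk y x)
    (hp : p.length % 2 = 0) : 2 * t + 3 ≤ p.length := by
  obtain ⟨r, r', s, s', rfl, rfl, h1, h2, h3⟩ := hc
  have h := L_walk s' p 0
  have hne : s ≠ s' := by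
    rintro rfl
    have := s.2
    omega
  simp only [L, col, Le, Lo, h1, h2, h3, hne] at h
  rw [if_pos (by omega)] at h
  simp at h
  omega

theorem parity_or_cross {t m : ℕ} (s0 : S m) {x y : V t m} (p : (G t m).Walk x y) :
    col y % 2 = (col x + p.length) % 2 ∨
      ∃ (u w : V t m) (p1 : (G t m).Walk x u) (p2 : (G t m).Walk w y),
        (Cross u w ∨ Cross w u) ∧ p1.length + p2.length + 1 = p.length := by
  induction p with
  | nil => left; simp
  | @cons u v z h q ih =>
    simp only [Walk.length_cons]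
    have key : col u % 2 ≠ col v % 2 ∨ (Cross u v ∨ Cross v u) := by
      rcases adj_R h with h | h <;> rcases R_cases s0 h with h | h
      · exact Or.inl h.1
      · exact Or.inr (Or.inl h.1)
      · exact Or.inl h.1.symm
      · exact Or.inr (Or.inr h.1)
    rcases key with key | key
    · rcases ih with ih | ⟨a, b, p1, p2, hc, hl⟩
      · left; omega
      · right
        refine ⟨a, b, Walk.cons h p1, p2, hc, ?_⟩
        simp only [Walk.length_cons]
        omega
    · right
      exact ⟨u, v, Walk.nil, q, key, by simp⟩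

theorem odd_closed_walk {t m : ℕ} (s0 : S m) {v : V t m} (p : (G t m).Walk v v)
    (hp : p.length % 2 = 1) : 2 * t + 4 ≤ p.length := by
  rcases parity_or_cross s0 p with h | ⟨u, w, p1, p2, hc, hl⟩
  · omega
  · rcases hc with hc | hc
    · have := cross_walk hc (p2.append p1) (by rw [Walk.length_append]; omega)
      rw [Walk.length_append] at this
      omega
    · have := cross_walk hc (p2.append p1).reverse
        (by rw [Walk.length_reverse, Walk.length_append]; omega)
      rw [Walk.length_reverse, Walk.length_append] at this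
      omega

theorem G_free {t m : ℕ} (s0 : S m) (i : ℕ) (h1 : 1 ≤ i) (hi : i ≤ t + 1) :
    (cycleGraph (2 * i + 1)).Free (G t m) := by
  intro h
  obtain ⟨v, p, _, hl⟩ := (cycleGraph_isContained_iff (by omega)).mp h
  have := odd_closed_walk s0 p (by omega)
  omega

theorem path_up {t m : ℕ} (s : S m) (r : ℕ) (hr : r < 2 * t + 1) :
    ∃ p : (G t m).Walk ((⟨0, by omega⟩ : Fin (2 * t + 1)), Sum.inl s) (⟨r, hr⟩, Sum.inl s),
      p.length = r := by
  induction r with
  | zero => exact ⟨Walk.nil, rfl⟩
  | succ r ih =>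
    obtain ⟨p, hp⟩ := ih (by omega)
    have hadj : (G t m).Adj ((⟨r, by omega⟩ : Fin (2 * t + 1)), Sum.inl s)
        (⟨r + 1, hr⟩, Sum.inl s) := by
      unfold G
      rw [SimpleGraph.fromRel_adj]
      refine ⟨by simp, Or.inl ?_⟩
      simp [R]
    exact ⟨p.concat hadj, (Walk.length_concat _ _).trans (congrArg (· + 1) hp)⟩

theorem path_arc {t m : ℕ} (s s' : S m) (h : s.1.2 = s'.1.1) :
    ∃ p : (G t m).Walk ((⟨0, by omega⟩ : Fin (2 * t + 1)), Sum.inl s)
      (⟨0, by omega⟩, Sum.inl s'), p.length = 2 * t + 1 := by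
  obtain ⟨p, hp⟩ := path_up (t := t) s (2 * t) (by omega)
  have hne : s ≠ s' := by
    rintro rfl
    have := s.2
    omega
  have hadj : (G t m).Adj ((⟨2 * t, by omega⟩ : Fin (2 * t + 1)), Sum.inl s)
      (⟨0, by omega⟩, Sum.inl s') := by
    unfold G
    rw [SimpleGraph.fromRel_adj]
    refine ⟨by simp [hne], Or.inl ?_⟩
    simp [R, h]
  exact ⟨p.concat hadj, (Walk.length_concat _ _).trans (congrArg (· + 1) hp)⟩

/-- The shift graph has large chromatic number. -/
theorem shift_pigeonhole {W : Type} [Fintype W] {m : ℕ} (hm : 2 ^ Fintype.card W < m)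
    (c : S m → W) : ∃ s s' : S m, s.1.2 = s'.1.1 ∧ c s = c s' := by
  classical
  let T : Fin m → Finset W := fun i => (Finset.univ.filter (fun s : S m => s.1.1 = i)).image c
  have hcard : Fintype.card (Finset W) < Fintype.card (Fin m) := by
    simpa using hm
  have key : ∀ i j : Fin m, i < j → T i = T j → ∃ s s' : S m, s.1.2 = s'.1.1 ∧ c s = c s' := by
    intro i j hij hT
    have h1 : c ⟨(i, j), hij⟩ ∈ T i := by
      apply Finset.mem_image_of_mem
      simp
    rw [hT] at h1
    obtain ⟨s', hs', hc⟩ := Finset.mem_image.mp h1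
    refine ⟨⟨(i, j), hij⟩, s', ?_, hc.symm⟩
    simp only [Finset.mem_filter, Finset.mem_univ, true_and] at hs'
    exact hs'.symm
  obtain ⟨i, j, hij, hT⟩ := Fintype.exists_ne_map_eq_of_card_lt T hcard
  rcases lt_or_gt_of_ne hij with h | h
  · exact key i j h hT
  · exact key j i h hT.symm

theorem image_has_odd_cycle {t m : ℕ} {W : Type} [Fintype W] (hm : 2 ^ Fintype.card W < m)
    (Γ : SimpleGraph W) (φ : G t m →g Γ) :
    ∃ i : ℕ, 1 ≤ i ∧ i ≤ t ∧ cycleGraph (2 * i + 1) ⊑ Γ := by
  obtain ⟨s, s', h, hc⟩ := shift_pigeonhole hm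
    (fun s : S m => φ ((⟨0, by omega⟩ : Fin (2 * t + 1)), Sum.inl s))
  obtain ⟨p, hp⟩ := path_arc (t := t) s s' h
  obtain ⟨w, c, hcyc, hodd, hle⟩ := exists_odd_cycle (2 * t + 1) _ ((p.map φ).copy rfl hc.symm)
    ((Walk.length_copy _ _ _).trans ((Walk.length_map _ _).trans hp)) (by omega)
  have h3 := hcyc.three_le_length
  refine ⟨c.length / 2, by omega, by omega, ?_⟩
  rw [cycleGraph_isContained_iff (by omega)]
  exact ⟨w, c, hcyc, by omega⟩

theorem card_V (t m : ℕ) : Fintype.card (V t m) ≤ 3 * (2 * t + 1) * Fintype.card (Om m) := by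
  have h1 : Fintype.card (S m) ≤ Fintype.card (Om m) :=
    Fintype.card_le_of_injective (fun s => ((fun _ => true), s)) (fun a b h => (Prod.mk.inj h).2)
  have h2 : Fintype.card (V t m) =
      (2 * t + 1) * (Fintype.card (S m) + (Fintype.card (Om m) + Fintype.card (Om m))) := by
    simp only [V, Fintype.card_prod, Fintype.card_sum, Fintype.card_fin]
  rw [h2]
  nlinarith

theorem degree_ge {t m : ℕ} [DecidableRel (G t m).Adj] (x : V t m) :
    Fintype.card (Om m) ≤ 4 * (G t m).degree x := by
  classical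
  obtain ⟨r, s | w | w⟩ := x
  · have hne : s.1.1 ≠ s.1.2 := ne_of_lt s.2
    let f : Om m → (G t m).neighborSet (r, Sum.inl s) × Bool × Bool := fun w =>
      (⟨(r, Sum.inr (Sum.inl
          (Function.update (Function.update w.1 s.1.1 true) s.1.2 false, w.2))), by
        rw [SimpleGraph.mem_neighborSet]
        unfold G
        rw [SimpleGraph.fromRel_adj]
        refine ⟨by simp, Or.inl ?_⟩
        simp [R, Function.update_of_ne hne]⟩, w.1 s.1.1, w.1 s.1.2)
    have hf : Function.Injective f := by
      intro a b hab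
      simp only [f, Prod.mk.injEq, Subtype.mk.injEq, Sum.inr.injEq, Sum.inl.injEq,
        true_and] at hab
      obtain ⟨⟨h1, h2⟩, h3, h4⟩ := hab
      refine Prod.ext ?_ h2
      funext k
      by_cases k2 : k = s.1.2
      · rw [k2]; exact h4
      · by_cases k1 : k = s.1.1
        · rw [k1]; exact h3
        · have := congrFun h1 k
          simpa [Function.update_of_ne k1, Function.update_of_ne k2] using this
    have := Fintype.card_le_of_injective f hf
    simp only [Fintype.card_prod, Fintype.card_bool, SimpleGraph.card_neighborSet_eq_degree]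
      at this ⊢
    omega
  · let f : Om m → (G t m).neighborSet (r, Sum.inr (Sum.inl w)) := fun w' =>
      ⟨(r, Sum.inr (Sum.inr w')), by
        rw [SimpleGraph.mem_neighborSet]
        unfold G
        rw [SimpleGraph.fromRel_adj]
        refine ⟨by simp, Or.inl ?_⟩
        simp [R]⟩
    have hf : Function.Injective f := by
      intro a b hab
      simpa [f] using hab
    have := Fintype.card_le_of_injective f hf
    rw [SimpleGraph.card_neighborSet_eq_degree] at this
    omega
  · let f : Om m → (G t m).neighborSet (r, Sum.inr (Sum.inr w)) := fun w' =>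
      ⟨(r, Sum.inr (Sum.inl w')), by
        rw [SimpleGraph.mem_neighborSet]
        unfold G
        rw [SimpleGraph.fromRel_adj]
        refine ⟨by simp, Or.inr ?_⟩
        simp [R]⟩
    have hf : Function.Injective f := by
      intro a b hab
      simpa [f] using hab
    have := Fintype.card_le_of_injective f hf
    rw [SimpleGraph.card_neighborSet_eq_degree] at this
    omega

end Pool.Agent.P.MP_0fa314_co
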